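import Mathlib
import Pool.Agent.H59.L.S8.Y506.RG.Stm

/-!
# Limits of weights
-/

set_option autoImplicit false

namespace Pool.Agent.Y510.RG

open MeasureTheory Set Filter Topology
open scoped ENNReal InnerProductSpace
open Pool.Agent.W695.KH (Eu EU EV VV Sm Pot Uu)
open Pool.Agent.Y506.RG

section

variable {n : ℕ}

lemma nu_pos (x : Eu (Fin n)) : 0 < 1 + ‖x‖ ^ 2 := by positivity

lemma meas_of {w : Eu (Fin n) → ℝ} (hw : Integrable (fun x => (1 + ‖x‖ ^ 2) * w x)) :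
    AEStronglyMeasurable w volume := by
  have h1 : Continuous (fun x : Eu (Fin n) => (1 + ‖x‖ ^ 2)⁻¹) :=
    Continuous.inv₀ (by fun_prop) fun x => (nu_pos x).ne'
  have h2 := h1.aestronglyMeasurable.mul hw.aestronglyMeasurable (μ := volume)
  refine h2.congr (Eventually.of_forall fun x => ?_)
  show (1 + ‖x‖ ^ 2)⁻¹ * ((1 + ‖x‖ ^ 2) * w x) = w x
  rw [inv_mul_cancel_left₀ (nu_pos x).ne']

lemma int_mul {w v : Eu (Fin n) → ℝ} {B : ℝ} (hw : Integrable (fun x => (1 + ‖x‖ ^ 2) * w x))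
    (hv : Continuous v) (hB : ∀ x, |v x| ≤ B * (1 + ‖x‖ ^ 2)) : Integrable (fun x => v x * w x) := by
  have h1 : Integrable (fun x => B * ‖(1 + ‖x‖ ^ 2) * w x‖) := hw.norm.const_mul B
  refine Integrable.mono' h1 (hv.aestronglyMeasurable.mul (meas_of hw)) (Eventually.of_forall fun x => ?_)
  rw [norm_mul, norm_mul, Real.norm_eq_abs, Real.norm_eq_abs, Real.norm_eq_abs,
    abs_of_pos (nu_pos x), ← mul_assoc]
  exact mul_le_mul_of_nonneg_right (hB x) (abs_nonneg _)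

lemma sub_int {w w' : Eu (Fin n) → ℝ} (hw : Integrable (fun x => (1 + ‖x‖ ^ 2) * w x))
    (hw' : Integrable (fun x => (1 + ‖x‖ ^ 2) * w' x)) :
    Integrable (fun x => (1 + ‖x‖ ^ 2) * |w' x - w x|) := by
  refine (hw'.sub hw).norm.congr (Eventually.of_forall fun x => ?_)
  show ‖(1 + ‖x‖ ^ 2) * w' x - (1 + ‖x‖ ^ 2) * w x‖ = _
  rw [← mul_sub, norm_mul, Real.norm_eq_abs, Real.norm_eq_abs, abs_of_pos (nu_pos x)]

lemma conv {w w' v : Eu (Fin n) → ℝ} {B : ℝ} (hw : Integrable (fun x => (1 + ‖x‖ ^ 2) * w x))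
    (hw' : Integrable (fun x => (1 + ‖x‖ ^ 2) * w' x)) (hv : Continuous v)
    (hB : ∀ x, |v x| ≤ B * (1 + ‖x‖ ^ 2)) :
    |(∫ x, v x * w' x) - ∫ x, v x * w x| ≤ B * ∫ x, (1 + ‖x‖ ^ 2) * |w' x - w x| := by
  rw [← integral_sub (int_mul hw' hv hB) (int_mul hw hv hB), ← integral_const_mul,
    ← Real.norm_eq_abs]
  refine norm_integral_le_of_norm_le ((sub_int hw hw').const_mul B) (Eventually.of_forall fun x => ?_)
  rw [← mul_sub, norm_mul, Real.norm_eq_abs, Real.norm_eq_abs, ← mul_assoc]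
  exact mul_le_mul_of_nonneg_right (hB x) (abs_nonneg _)

lemma bound {w v : Eu (Fin n) → ℝ} {B : ℝ} (hw : Integrable (fun x => (1 + ‖x‖ ^ 2) * w x))
    (hv : Continuous v) (hB : ∀ x, |v x| ≤ B * (1 + ‖x‖ ^ 2)) :
    |∫ x, v x * w x| ≤ B * ∫ x, (1 + ‖x‖ ^ 2) * |w x| := by
  have h := conv (w := fun _ => (0:ℝ)) (w' := w) (by simp) hw hv hB
  simpa using h

/-- the size of the mean of a function bounded by `1 + ‖x‖ ^ 2` -/
noncomputable def KK (w : Eu (Fin n) → ℝ) : ℝ := (∫ x, (1 + ‖x‖ ^ 2) * |w x|) / ∫ x, w x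

/-- the distance of two weights -/
noncomputable def ka (w w' : Eu (Fin n) → ℝ) : ℝ :=
  (∫ x, (1 + ‖x‖ ^ 2) * |w' x - w x|) / (∫ x, w' x) * (1 + KK w)

lemma KK_nonneg {w : Eu (Fin n) → ℝ} (hm : 0 < ∫ x, w x) : 0 ≤ KK w :=
  div_nonneg (integral_nonneg fun x => mul_nonneg (nu_pos x).le (abs_nonneg _)) hm.le

lemma ka_nonneg {w w' : Eu (Fin n) → ℝ} (hm : 0 < ∫ x, w x) (hm' : 0 < ∫ x, w' x) : 0 ≤ ka w w' :=
  mul_nonneg (div_nonneg (integral_nonneg fun x => mul_nonneg (nu_pos x).le (abs_nonneg _)) hm'.le)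
    (by have := KK_nonneg hm; linarith)

lemma EW_bd {w v : Eu (Fin n) → ℝ} {B : ℝ} (hw : Integrable (fun x => (1 + ‖x‖ ^ 2) * w x))
    (hm : 0 < ∫ x, w x) (hv : Continuous v) (hB : ∀ x, |v x| ≤ B * (1 + ‖x‖ ^ 2)) :
    |EW w v| ≤ B * KK w := by
  unfold EW KK
  rw [abs_div, abs_of_pos hm, ← mul_div_assoc]
  exact div_le_div_of_nonneg_right (bound hw hv hB) hm.le

lemma EW_close {w w' v : Eu (Fin n) → ℝ} {B : ℝ} (hw : Integrable (fun x => (1 + ‖x‖ ^ 2) * w x))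
    (hw' : Integrable (fun x => (1 + ‖x‖ ^ 2) * w' x)) (hm : 0 < ∫ x, w x) (hm' : 0 < ∫ x, w' x)
    (hv : Continuous v) (hB : ∀ x, |v x| ≤ B * (1 + ‖x‖ ^ 2)) :
    |EW w' v - EW w v| ≤ B * ka w w' := by
  have h1 := conv hw hw' hv hB
  have h2 := EW_bd hw hm hv hB
  have h3 := conv (v := fun _ => (1:ℝ)) (B := 1) hw hw' continuous_const (fun x => by
    rw [abs_one, one_mul]; have := sq_nonneg ‖x‖; linarith)
  simp only [one_mul] at h3
  set δ := ∫ x, (1 + ‖x‖ ^ 2) * |w' x - w x| with hδ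
  have e : EW w' v - EW w v = (((∫ x, v x * w' x) - ∫ x, v x * w x) -
      EW w v * ((∫ x, w' x) - ∫ x, w x)) / ∫ x, w' x := by
    have e1 : EW w v * ∫ x, w x = ∫ x, v x * w x := by
      unfold EW
      exact div_mul_cancel₀ _ hm.ne'
    rw [mul_sub, e1]
    conv_lhs => rw [show EW w' v = (∫ x, v x * w' x) / ∫ x, w' x from rfl]
    field_simp
    ring
  rw [e, abs_div, abs_of_pos hm']
  have h4 : |((∫ x, v x * w' x) - ∫ x, v x * w x) - EW w v * ((∫ x, w' x) - ∫ x, w x)| ≤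
      B * δ + B * KK w * δ := by
    refine (abs_sub _ _).trans (add_le_add h1 ?_)
    rw [abs_mul]
    exact mul_le_mul h2 h3 (abs_nonneg _) ((abs_nonneg _).trans h2)
  have h5 : B * ka w w' = (B * δ + B * KK w * δ) / ∫ x, w' x := by
    unfold ka
    ring
  rw [h5]
  exact div_le_div_of_nonneg_right h4 hm'.le

lemma VW_close {w w' v : Eu (Fin n) → ℝ} {B B₂ : ℝ}
    (hw : Integrable (fun x => (1 + ‖x‖ ^ 2) * w x))
    (hw' : Integrable (fun x => (1 + ‖x‖ ^ 2) * w' x)) (hm : 0 < ∫ x, w x) (hm' : 0 < ∫ x, w' x)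
    (hv : Continuous v) (hB : ∀ x, |v x| ≤ B * (1 + ‖x‖ ^ 2))
    (hB₂ : ∀ x, |v x ^ 2| ≤ B₂ * (1 + ‖x‖ ^ 2)) :
    |VW w' v - VW w v| ≤ B₂ * ka w w' + B * ka w w' * (2 * (B * KK w) + B * ka w w') := by
  have h1 := EW_close hw hw' hm hm' hv hB
  have h2 := EW_close (v := fun x => v x ^ 2) hw hw' hm hm' (hv.pow 2) hB₂
  have h3 := EW_bd hw hm hv hB
  have e : VW w' v - VW w v = (EW w' (fun x => v x ^ 2) - EW w fun x => v x ^ 2) -
      (EW w' v - EW w v) * (2 * EW w v + (EW w' v - EW w v)) := by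
    unfold VW
    ring
  rw [e]
  refine (abs_sub _ _).trans (add_le_add h2 ?_)
  rw [abs_mul]
  refine mul_le_mul h1 ?_ (abs_nonneg _) ((abs_nonneg _).trans h1)
  refine (abs_add_le _ _).trans (add_le_add ?_ h1)
  rw [abs_mul, abs_two]
  linarith

end

theorem limw : S_LIMW := by
  intro n c w W _ hw hm hW hlim hev k T s hs hvar f L M hf hf2 h5
  obtain ⟨A, hA⟩ : ∃ A : ℝ, A = ‖T.toContinuousLinearMap‖ := ⟨_, rfl⟩
  have hA0 : 0 ≤ A := by rw [hA]; exact norm_nonneg _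
  have hTc : Continuous T := T.continuous_of_finiteDimensional
  have hT : ∀ x, ‖T x‖ ≤ A * ‖x‖ := fun x => by
    rw [hA]; exact T.toContinuousLinearMap.le_opNorm x
  have hx1 : ∀ x : Eu (Fin n), ‖x‖ ≤ 1 + ‖x‖ ^ 2 := fun x => by nlinarith [sq_nonneg (‖x‖ - 1)]
  have hx2 : ∀ x : Eu (Fin n), 1 ≤ 1 + ‖x‖ ^ 2 := fun x => by nlinarith [sq_nonneg ‖x‖]
  have hL : 0 ≤ L := (norm_nonneg _).trans (hf.grad 0)
  -- the masses
  have hmj : Tendsto (fun j => ∫ x, W j x) atTop (𝓝 (∫ x, w x)) := by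
    rw [tendsto_iff_norm_sub_tendsto_zero]
    refine squeeze_zero (fun j => norm_nonneg _) (fun j => ?_) hlim
    have h3 := conv (v := fun _ => (1:ℝ)) (B := 1) hw (hW j) continuous_const (fun x => by
      rw [abs_one, one_mul]; exact hx2 x)
    simpa using h3
  have hmpos : ∀ᶠ j in atTop, 0 < ∫ x, W j x := hmj.eventually (lt_mem_nhds hm)
  have hka : Tendsto (fun j => ka w (W j)) atTop (𝓝 0) := by
    unfold ka
    have h1 := (hlim.div hmj hm.ne').mul_const (1 + KK w)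
    rw [zero_div, zero_mul] at h1
    exact h1
  -- the function `f ∘ T`
  have hfc : Continuous (fun x => f (T x)) := hf.diff.continuous.comp hTc
  have hfb : ∀ x, |f (T x)| ≤ 1 * (1 + ‖x‖ ^ 2) := fun x => by
    have := hf2 (T x); have := hx2 x; linarith
  have hfb2 : ∀ x, |f (T x) ^ 2| ≤ 1 * (1 + ‖x‖ ^ 2) := fun x => by
    have h1 := hf2 (T x)
    have h2 := hx2 x
    rw [abs_pow]
    have h3 := abs_nonneg (f (T x))
    nlinarith
  have hVf : Tendsto (fun j => VW (W j) fun x => f (T x)) atTop (𝓝 (VW w fun x => f (T x))) := by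
    rw [tendsto_iff_norm_sub_tendsto_zero]
    have h1 : Tendsto (fun j => 1 * ka w (W j) + 1 * ka w (W j) *
        (2 * (1 * KK w) + 1 * ka w (W j))) atTop (𝓝 0) := by
      have := (hka.const_mul 1).add ((hka.const_mul 1).mul
        ((hka.const_mul 1).const_add (2 * (1 * KK w))))
      simpa using this
    refine squeeze_zero' (Eventually.of_forall fun j => norm_nonneg _) ?_ h1
    filter_upwards [hmpos] with j hj
    exact VW_close hw (hW j) hm hj hfc hfb hfb2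
  -- the gradient
  have hgc : Continuous (fun x => ‖fderiv ℝ f (T x)‖) :=
    ((hf.diff.continuous_fderiv (by norm_num)).comp hTc).norm
  have hgb : ∀ x, |‖fderiv ℝ f (T x)‖| ≤ L * (1 + ‖x‖ ^ 2) := fun x => by
    rw [abs_norm]
    have h1 := hf.grad (T x)
    have h2 := hx2 x
    nlinarith
  have hEg : Tendsto (fun j => EW (W j) fun x => ‖fderiv ℝ f (T x)‖) atTop
      (𝓝 (EW w fun x => ‖fderiv ℝ f (T x)‖)) := by
    rw [tendsto_iff_norm_sub_tendsto_zero]
    have h1 : Tendsto (fun j => L * ka w (W j)) atTop (𝓝 0) := by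
      simpa using hka.const_mul L
    refine squeeze_zero' (Eventually.of_forall fun j => norm_nonneg _) ?_ h1
    filter_upwards [hmpos] with j hj
    exact EW_close hw (hW j) hm hj hgc hgb
  -- the variances of the linear forms
  obtain ⟨e, he⟩ : ∃ e : ℕ → ℝ, e = fun j => A ^ 2 * ka w (W j) + A * ka w (W j) *
      (2 * (A * KK w) + A * ka w (W j)) := ⟨_, rfl⟩
  have he0 : Tendsto e atTop (𝓝 0) := by
    rw [he]
    have := (hka.const_mul (A ^ 2)).add ((hka.const_mul A).mul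
        ((hka.const_mul A).const_add (2 * (A * KK w))))
    simpa using this
  have hmain : ∀ᶠ j in atTop, VW (W j) (fun x => f (T x)) ≤
      c * Real.sqrt (s + e j) * EW (W j) fun x => ‖fderiv ℝ f (T x)‖ := by
    filter_upwards [hmpos, hev, hVf.eventually (lt_mem_nhds h5)] with j hj hst h5j
    have hk0 := ka_nonneg hm hj
    have hK0 := KK_nonneg hm
    have hej : 0 ≤ e j := by
      rw [he]
      positivity
    refine hst k T (s + e j) (by linarith) ?_ f L M hf hf2 h5j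
    intro θ hθ
    have hb1 : ∀ x, |⟪T x, θ⟫_ℝ| ≤ A * (1 + ‖x‖ ^ 2) := fun x => by
      have h1 := abs_real_inner_le_norm (T x) θ
      rw [hθ, mul_one] at h1
      have h2 := hT x
      have h3 := mul_le_mul_of_nonneg_left (hx1 x) hA0
      linarith
    have hb2 : ∀ x, |⟪T x, θ⟫_ℝ ^ 2| ≤ A ^ 2 * (1 + ‖x‖ ^ 2) := fun x => by
      have h1 := abs_real_inner_le_norm (T x) θ
      rw [hθ, mul_one] at h1
      have h2 := pow_le_pow_left₀ (abs_nonneg _) (h1.trans (hT x)) 2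
      rw [abs_pow]
      have h3 := sq_nonneg A
      nlinarith
    have hc1 : Continuous (fun x => ⟪T x, θ⟫_ℝ) := hTc.inner continuous_const
    have h1 := VW_close hw (hW j) hm hj hc1 hb1 hb2
    have h2 := hvar θ hθ
    have h3 := (abs_le.1 h1).2
    rw [he]
    linarith
  refine le_of_tendsto_of_tendsto hVf ?_ hmain
  have h1 : Tendsto (fun j => Real.sqrt (s + e j)) atTop (𝓝 (Real.sqrt s)) := by
    have h2 : Tendsto (fun j => s + e j) atTop (𝓝 s) := by simpa using he0.const_add s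
    exact (Real.continuous_sqrt.tendsto s).comp h2
  exact (h1.const_mul c).mul hEg

end Pool.Agent.Y510.RG
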